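import Pool.Agent.Helper24.AB.Asm
import Pool.Agent.Helper24.AB.AsmP3
import Pool.Agent.Helper10.AB.BERG

/-! # MP_1ef41b_an, Q1: a globally regular Bergman projection without property (DF1)

There is a bounded pseudoconvex domain in `ℂ^4` with `C^∞` boundary whose Bergman projection is
globally regular but which does not have property (DF1). The definitions are in
`Pool/Agent/Helper24/AB/Stmt.lean`, a complete proof on paper is `Pool/Agent/Helper24/AB/PAPER.md`. -/

open Pool.Agent.Helper24.AB

theorem Pool.Agent.Results.MP_1ef41b_an.BergmanRegularNotDF1.result :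
    ∃ Ω : Set (Fin 4 → ℂ), IsSmoothBoundedPseudoconvexDomain Ω ∧ BergmanGloballyRegular Ω ∧
      ¬ DF1 Ω :=
  Pool.Agent.Helper24.AB.Fin.final_of_berg
    (Pool.Agent.Helper10.AB.berg Pool.Agent.Helper24.AB.Fin.anm Pool.Agent.Helper24.AB.Fin.phi2
      (Pool.Agent.Helper24.AB.Fin.phi3_pola Pool.Agent.Helper37.AB.POLA.pola)
      Pool.Agent.Helper24.AB.Fin.wtf)
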